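import Pool.Agent.L5helper73.Inf.G

/-!
# Infinite sequences of families: abstract part

A family has points `p τ` with finitely many complex coordinates, for natural numbers `τ`, on the fibres over
`2πi` of sets `F τ lam`, which have many points with coordinates in `ℚ + ℚ lam`. This generalises the files of helper73
(`Pool.Agent.L5helper73.Inf`) from hyperelliptic curves to arbitrary families.
-/

set_option autoImplicit false

open Polynomial NumberField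

namespace Pool.Agent.L5helper39.HI

open Pool.Agent.L5helper73.Inf Pool.Agent.Y118.HP Pool.Agent.Y118.HG Pool.Agent.Y113

/-- the number `2πi` -/
noncomputable def tpi : ℂ := 2 * Real.pi * Complex.I

theorem tpi_ne : tpi ≠ 0 := two_pi_I_ne

/-- a family of points on torsors -/
structure Fam where
  /-- the index set of the coordinates -/
  I : Type
  fin : Fintype I
  /-- the admissible parameters -/
  G : Set ℕ
  /-- the points -/
  p : ℕ → I → ℂ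
  /-- the fibres of the torsors -/
  F : ℕ → ℂ → Set (I → ℂ)
  /-- rational points of the torsor over the line -/
  R : ℕ → Set (I → ℚ[X])
  hp : ∀ τ ∈ G, p τ ∈ F τ tpi
  hRne : ∀ τ ∈ G, (R τ).Nonempty
  hRdeg : ∀ τ ∈ G, ∀ ρ ∈ R τ, ∀ i, (ρ i).natDegree ≤ 1
  hRF : ∀ τ ∈ G, ∀ ρ ∈ R τ, ∀ lam : ℂ, lam ≠ 0 → (fun i => aeval lam (ρ i)) ∈ F τ lam
  hdense : ∀ τ ∈ G, ∀ lam : ℂ, lam ≠ 0 → ∀ P : MvPolynomial I ℂ,
    (∀ ρ ∈ R τ, MvPolynomial.aeval (fun i => (aeval lam (ρ i) : ℂ)) P = 0) → ∀ y ∈ F τ lam, MvPolynomial.aeval y P = 0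
  hirr : ∀ τ ∈ G, ∀ P P' : MvPolynomial I ℂ, (∃ y ∈ F τ tpi, MvPolynomial.aeval y P ≠ 0) →
    (∃ y ∈ F τ tpi, MvPolynomial.aeval y P' ≠ 0) →
    ∃ y ∈ F τ tpi, MvPolynomial.aeval y P ≠ 0 ∧ MvPolynomial.aeval y P' ≠ 0

/-- the good parameters, for the space `W` -/
def GoodAt (A : Fam) (W : Submodule ℚ ℂ) (δ τ : ℕ) : Prop :=
  τ ∈ A.G ∧ ∀ Q : MvPolynomial A.I ℂ, DC δ (W ^ δ) Q → MvPolynomial.aeval (A.p τ) Q = 0 →
    ∀ y ∈ A.F τ tpi, MvPolynomial.aeval y Q = 0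

variable (A : ℕ → Fam)

/-- the known numbers: `2πi`, the first `e` constants, the coordinates of the points of the first `k` families -/
def Kn (c : ℕ → ℂ) (t : ℕ → ℕ) (e k : ℕ) : Set ℂ :=
  {z | z = tpi ∨ (∃ i < e, z = c i) ∨ ∃ i < k, ∃ x : (A i).I, z = (A i).p (t i) x}

/-- the space spanned by `1` and the known numbers -/
noncomputable def Wk (c : ℕ → ℂ) (t : ℕ → ℕ) (e k : ℕ) : Submodule ℚ ℂ := Submodule.span ℚ (insert 1 (Kn A c t e k))

abbrev Kidx (e k : ℕ) : Type := Option (Option (Fin e ⊕ Σ i : Fin k, (A i).I))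

noncomputable instance (e k : ℕ) : Fintype (Kidx A e k) := by
  haveI : ∀ i : Fin k, Fintype (A i).I := fun i => (A i).fin
  infer_instance

noncomputable def kfun (c : ℕ → ℂ) (t : ℕ → ℕ) (e k : ℕ) : Kidx A e k → ℂ := fun o =>
  o.elim 1 fun o' => o'.elim tpi (Sum.elim (fun i => c i) fun x => (A x.1).p (t x.1) x.2)

theorem kfun_range (c : ℕ → ℂ) (t : ℕ → ℕ) (e k : ℕ) : insert 1 (Kn A c t e k) = Set.range (kfun A c t e k) := by
  ext z
  rw [Set.mem_insert_iff]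
  constructor
  · rintro (h | h | ⟨i, hi, h⟩ | ⟨i, hi, x, h⟩)
    · exact ⟨none, h.symm⟩
    · exact ⟨some none, h.symm⟩
    · exact ⟨some (some (Sum.inl ⟨i, hi⟩)), h.symm⟩
    · exact ⟨some (some (Sum.inr ⟨⟨i, hi⟩, x⟩)), h.symm⟩
  · rintro ⟨o, rfl⟩
    rcases o with _ | _ | i | ⟨i, x⟩
    · exact Or.inl rfl
    · exact Or.inr (Or.inl rfl)
    · exact Or.inr (Or.inr (Or.inl ⟨i, i.2, rfl⟩))
    · exact Or.inr (Or.inr (Or.inr ⟨i, i.2, x, rfl⟩))

theorem Wk_fin (c : ℕ → ℂ) (t : ℕ → ℕ) (e k : ℕ) :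
    Module.Finite ℚ (Wk A c t e k) ∧ Module.finrank ℚ (Wk A c t e k) ≤ Fintype.card (Kidx A e k) := by
  unfold Wk
  rw [kfun_range]
  exact ⟨Module.Finite.span_of_finite ℚ (Set.finite_range _), finrank_range_le_card _⟩

theorem Kn_mono (c : ℕ → ℂ) (t : ℕ → ℕ) {e e' k k' : ℕ} (he : e ≤ e') (hk : k ≤ k') :
    Kn A c t e k ⊆ Kn A c t e' k' := by
  rintro z (h | ⟨i, hi, h⟩ | ⟨i, hi, x, h⟩)
  · exact Or.inl h
  · exact Or.inr (Or.inl ⟨i, by omega, h⟩)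
  · exact Or.inr (Or.inr ⟨i, by omega, x, h⟩)

theorem Wk_mono (c : ℕ → ℂ) (t : ℕ → ℕ) {e e' k k' : ℕ} (he : e ≤ e') (hk : k ≤ k') :
    Wk A c t e k ≤ Wk A c t e' k' := Submodule.span_mono (Set.insert_subset_insert (Kn_mono A c t he hk))

theorem Wk_congr (c : ℕ → ℂ) {t t' : ℕ → ℕ} {e k : ℕ} (h : ∀ i < k, t i = t' i) : Wk A c t e k = Wk A c t' e k := by
  unfold Wk
  congr 2
  ext z
  unfold Kn
  simp only [Set.mem_ofPred_eq]
  refine or_congr_right (or_congr_right ?_)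
  constructor
  · rintro ⟨i, hi, x, hz⟩
    exact ⟨i, hi, x, by rw [← h i hi]; exact hz⟩
  · rintro ⟨i, hi, x, hz⟩
    exact ⟨i, hi, x, by rw [h i hi]; exact hz⟩

/-- the index type of the coordinates of the families in `J` -/
abbrev IJ (J : Set ℕ) : Type := Σ j : J, (A j).I

/-- the inclusion of the indices -/
def io (J : Set ℕ) (x : IJ A J) : Σ j : ℕ, (A j).I := ⟨x.1, x.2⟩

open Classical in
/-- the fibres -/
noncomputable def Fs (J : Set ℕ) (t : ℕ → ℕ) (lam : ℂ) (j : ℕ) : Set ((A j).I → ℂ) :=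
  if j ∈ J then (A j).F (t j) lam else {0}

open Classical in
/-- the points with coordinates in `ℚ + ℚ lam` -/
noncomputable def Rs (J : Set ℕ) (t : ℕ → ℕ) (lam : ℂ) (j : ℕ) : Set ((A j).I → ℂ) :=
  if j ∈ J then {y | ∃ ρ ∈ (A j).R (t j), y = fun i => aeval lam (ρ i)} else {0}

section abs

variable {A} {J : Set ℕ} {t : ℕ → ℕ}

theorem Rs_sub (hJ : ∀ j ∈ J, t j ∈ (A j).G) {lam : ℂ} (hl : lam ≠ 0) (j : ℕ) : Rs A J t lam j ⊆ Fs A J t lam j := by
  unfold Rs Fs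
  split_ifs with h
  · rintro _ ⟨ρ, hρ, rfl⟩
    exact (A j).hRF _ (hJ j h) ρ hρ lam hl
  · exact subset_rfl

theorem Rs_ne (hJ : ∀ j ∈ J, t j ∈ (A j).G) (lam : ℂ) (j : ℕ) : (Rs A J t lam j).Nonempty := by
  unfold Rs
  split_ifs with h
  · obtain ⟨ρ, hρ⟩ := (A j).hRne _ (hJ j h)
    exact ⟨_, ρ, hρ, rfl⟩
  · exact Set.singleton_nonempty _

theorem aeval_le_one {lam : ℂ} {W : Submodule ℚ ℂ} (h1 : (1 : ℂ) ∈ W) (h2 : lam ∈ W) {q : ℚ[X]}
    (hq : q.natDegree ≤ 1) : aeval lam q ∈ W := by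
  rw [Polynomial.eq_X_add_C_of_natDegree_le_one hq, map_add, map_mul, aeval_C, aeval_X, aeval_C]
  refine W.add_mem ?_ ?_
  · rw [← Algebra.smul_def]
    exact W.smul_mem _ h2
  · rw [Algebra.algebraMap_eq_smul_one]
    exact W.smul_mem _ h1

theorem Rs_mem (hJ : ∀ j ∈ J, t j ∈ (A j).G) {lam : ℂ} {W : Submodule ℚ ℂ} (h1 : (1 : ℂ) ∈ W) (h2 : lam ∈ W) {j : ℕ}
    {y : (A j).I → ℂ} (hy : y ∈ Rs A J t lam j) (i : (A j).I) : y i ∈ W := by
  unfold Rs at hy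
  split_ifs at hy with h
  · obtain ⟨ρ, hρ, rfl⟩ := hy
    exact aeval_le_one h1 h2 ((A j).hRdeg _ (hJ j h) ρ hρ i)
  · rw [Set.mem_singleton_iff] at hy
    rw [hy]
    exact W.zero_mem

theorem Fs_dense (hJ : ∀ j ∈ J, t j ∈ (A j).G) {lam : ℂ} (hl : lam ≠ 0) (j : ℕ) (P : MvPolynomial (A j).I ℂ)
    (h : ∀ y ∈ Rs A J t lam j, MvPolynomial.aeval y P = 0) : ∀ y ∈ Fs A J t lam j, MvPolynomial.aeval y P = 0 := by
  unfold Rs at h
  unfold Fs
  split_ifs at h ⊢ with hj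
  · exact (A j).hdense _ (hJ j hj) lam hl P fun ρ hρ => h _ ⟨ρ, hρ, rfl⟩
  · exact h

theorem Fs_irr (hJ : ∀ j ∈ J, t j ∈ (A j).G) (j : ℕ) (P P' : MvPolynomial (A j).I ℂ)
    (hP : ∃ y ∈ Fs A J t tpi j, MvPolynomial.aeval y P ≠ 0) (hP' : ∃ y ∈ Fs A J t tpi j, MvPolynomial.aeval y P' ≠ 0) :
    ∃ y ∈ Fs A J t tpi j, MvPolynomial.aeval y P ≠ 0 ∧ MvPolynomial.aeval y P' ≠ 0 := by
  unfold Fs at hP hP' ⊢
  split_ifs at hP hP' ⊢ with hj
  · exact (A j).hirr _ (hJ j hj) P P' hP hP'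
  · obtain ⟨y, hy, h1⟩ := hP
    obtain ⟨y', hy', h2⟩ := hP'
    rw [Set.mem_singleton_iff] at hy hy'
    subst hy
    subst hy'
    exact ⟨_, rfl, h1, h2⟩

end abs

/-- the substitution of the known numbers -/
noncomputable def Ls (κ : Set ℂ) (J : Set ℕ) : κ ⊕ IJ A J → MvPolynomial (Σ j, (A j).I) ℂ :=
  Sum.elim (fun z => MvPolynomial.C (z : ℂ)) (fun x => MvPolynomial.X (io A J x))

theorem Ls_eval (κ : Set ℂ) (J : Set ℕ) (P : MvPolynomial (κ ⊕ IJ A J) ℂ) (Y : (Σ j, (A j).I) → ℂ) :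
    MvPolynomial.aeval Y (MvPolynomial.aeval (Ls A κ J) P) =
      MvPolynomial.aeval (Sum.elim (fun z : κ => (z : ℂ)) (Y ∘ io A J)) P := by
  have h1 := MvPolynomial.comp_aeval_apply (f := Ls A κ J)
    (MvPolynomial.aeval Y : MvPolynomial (Σ j, (A j).I) ℂ →ₐ[ℂ] ℂ) P
  rw [h1]
  congr 2
  funext o
  rcases o with z | x
  · simp [Ls]
  · simp [Ls]

theorem Ls_vars (κ : Set ℂ) (J : Set ℕ) (P : MvPolynomial (κ ⊕ IJ A J) ℂ) :
    ∀ x ∈ (MvPolynomial.aeval (Ls A κ J) P).vars, x.1 ∈ J := by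
  classical
  have h1 : MvPolynomial.aeval (Ls A κ J) P = MvPolynomial.rename (io A J)
      (MvPolynomial.aeval (Sum.elim (fun z : κ => MvPolynomial.C (z : ℂ)) (fun x => MvPolynomial.X x) :
        κ ⊕ IJ A J → MvPolynomial (IJ A J) ℂ) P) := by
    have h2 := MvPolynomial.comp_aeval_apply (f := (Sum.elim (fun z : κ => MvPolynomial.C (z : ℂ))
      (fun x => MvPolynomial.X x) : κ ⊕ IJ A J → MvPolynomial (IJ A J) ℂ))
      (MvPolynomial.rename (io A J) : MvPolynomial (IJ A J) ℂ →ₐ[ℂ] MvPolynomial (Σ j, (A j).I) ℂ) P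
    rw [h2]
    congr 2
    funext o
    rcases o with z | x
    · simp [Ls]
    · simp [Ls]
  intro x hx
  rw [h1] at hx
  have h2 := MvPolynomial.vars_rename (io A J) _ hx
  obtain ⟨y, -, rfl⟩ := Finset.mem_image.1 h2
  exact y.1.2

section main

variable {A} {c : ℕ → ℂ} {t : ℕ → ℕ} {J : Set ℕ} {δ Φ : ℕ → ℕ}

open Classical in
/-- the points -/
noncomputable def ps (A : ℕ → Fam) (t : ℕ → ℕ) (J : Set ℕ) (x : Σ j, (A j).I) : ℂ :=
  if x.1 ∈ J then (A x.1).p (t x.1) x.2 else 0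

theorem ps_mem (hJ : ∀ j ∈ J, t j ∈ (A j).G) (j : ℕ) : (fun i => ps A t J ⟨j, i⟩) ∈ Fs A J t tpi j := by
  unfold Fs ps
  by_cases h : j ∈ J
  · rw [if_pos h]
    simp only [if_pos h]
    exact (A j).hp _ (hJ j h)
  · rw [if_neg h]
    simp only [if_neg h]
    rfl

/-- relations with integral coefficients -/
theorem relZ (hΦ : Monotone Φ) (hJ : ∀ j ∈ J, GoodAt (A j) (Wk A c t (Φ j) j) (δ j) (t j)) {k d e : ℕ}
    (hk : ∀ j ∈ J, k ≤ j) (hd : ∀ j ∈ J, 2 * d ≤ δ j) (he : e ≤ Φ k) (M : MvPolynomial (Kn A c t e k ⊕ IJ A J) ℤ)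
    (hM : M.totalDegree ≤ d)
    (h0 : MvPolynomial.aeval (Sum.elim (fun z : Kn A c t e k => (z : ℂ)) (ps A t J ∘ io A J)) M = 0)
    (Y : (Σ j, (A j).I) → ℂ) (hY : ∀ j, (fun i => Y ⟨j, i⟩) ∈ Fs A J t tpi j) :
    MvPolynomial.aeval (Sum.elim (fun z : Kn A c t e k => (z : ℂ)) (Y ∘ io A J)) M = 0 := by
  classical
  have hG : ∀ j ∈ J, t j ∈ (A j).G := fun j hj => (hJ j hj).1
  rw [aeval_int_map, ← Ls_eval] at h0 ⊢
  set W : ℕ → Submodule ℚ ℂ := fun j => Wk A c t (Φ j) j with hW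
  have hW1 : ∀ j, (1 : ℂ) ∈ W j := fun j => Submodule.subset_span (Set.mem_insert _ _)
  have hWK : ∀ j, ∀ z ∈ Kn A c t (Φ j) j, z ∈ W j := fun j z hz => Submodule.subset_span (Set.mem_insert_of_mem _ hz)
  have hWl : ∀ j, tpi ∈ W j := fun j => hWK j _ (Or.inl rfl)
  have hWm : Monotone W := fun i j hij => Wk_mono A c t (hΦ hij) hij
  have hDM : DC d (1 : Submodule ℚ ℂ) (M.map (Int.castRingHom ℂ)) := by
    refine ⟨(totalDegree_map_le _ M).trans hM, fun s => ?_⟩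
    rw [MvPolynomial.coeff_map, Submodule.mem_one]
    exact ⟨((M.coeff s : ℤ) : ℚ), by simp⟩
  have hDP := DC_subst (hW1 k) (Ls A (Kn A c t e k) J) (fun o => by
    rcases o with z | x
    · exact DC_C (hWK k _ (Kn_mono A c t he le_rfl z.2))
    · exact DC_X (hW1 k) _) hDM
  rw [one_mul] at hDP
  refine step2 (F := Fs A J t tpi) (R := Rs A J t tpi) (fun j => Rs_ne hG _ j)
    (fun j => Fs_dense hG tpi_ne j) (fun Y hY => ?_) hY
  refine step1 (p := ps A t J) (F := Fs A J t tpi)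
    (R := Rs A J t tpi) (W := W) (δ := δ) (J := J) (k := k) (d := d)
    (fun j => Rs_sub hG tpi_ne j) (fun j k y hy i => Rs_mem hG (hW1 k) (hWl k) hy i) hW1 hWm ?_ ?_
    (fun j hj _ => hd j hj) hDP (fun x hx => ?_) h0 hY
  · intro j k hjk i
    unfold ps
    simp only
    split_ifs
    · exact hWK k _ (Or.inr (Or.inr ⟨j, hjk, i, rfl⟩))
    · exact Submodule.zero_mem _
  · intro j hj Q hQ hQ0
    have h1 := (hJ j hj).2 Q hQ (by
      rw [← hQ0]
      congr 2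
      funext i
      unfold ps
      simp only
      rw [if_pos hj])
    unfold Fs
    rw [if_pos hj]
    exact h1
  · have h1 := Ls_vars A (Kn A c t e k) J _ x hx
    exact ⟨h1, hk _ h1⟩

/-- relations over number fields, relative to the known numbers -/
theorem relK (hΦ : Monotone Φ) (hJ : ∀ j ∈ J, GoodAt (A j) (Wk A c t (Φ j) j) (δ j) (t j)) {k D e : ℕ}
    (hk : ∀ j ∈ J, k ≤ j) (hd : ∀ j ∈ J, 2 * (D * max 1 D) ≤ δ j) (he : e ≤ Φ k) (K : Type) [Field K] [NumberField K]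
    (hK : Module.finrank ℚ K ≤ D) (φ : K →+* ℂ)
    (P : MvPolynomial (Kn A c t e k ⊕ IJ A J) K) (hP : P.totalDegree ≤ D)
    (h0 : MvPolynomial.aeval (Sum.elim (fun z : Kn A c t e k => (z : ℂ)) (ps A t J ∘ io A J)) (P.map φ) = 0)
    (Y : (Σ j, (A j).I) → ℂ) (hY : ∀ j, (fun i => Y ⟨j, i⟩) ∈ Fs A J t tpi j) :
    MvPolynomial.aeval (Sum.elim (fun z : Kn A c t e k => (z : ℂ)) (Y ∘ io A J)) (P.map φ) = 0 := by
  classical
  have hG : ∀ j ∈ J, t j ∈ (A j).G := fun j hj => (hJ j hj).1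
  set S : Set (Kn A c t e k ⊕ IJ A J → ℂ) := {z | ∃ Y : (Σ j, (A j).I) → ℂ,
    (∀ j, (fun i => Y ⟨j, i⟩) ∈ Fs A J t tpi j) ∧
    z = Sum.elim (fun z : Kn A c t e k => (z : ℂ)) (Y ∘ io A J)} with hS
  refine numfield S ?_ (p := Sum.elim (fun z : Kn A c t e k => (z : ℂ)) (ps A t J ∘ io A J))
    ⟨_, ps_mem hG, rfl⟩ (D * max 1 D) ?_ K φ P
    (Nat.mul_le_mul hK (max_le_max le_rfl hP)) h0 _ ⟨Y, hY, rfl⟩
  · intro ψ T P' hP'
    obtain ⟨Y, hY1, hY2⟩ := step4 (F := Fs A J t tpi)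
      (fun j => (Rs_ne hG _ j).mono (Rs_sub hG tpi_ne j)) (fun j => Fs_irr hG j) T
      (fun i => MvPolynomial.aeval (Ls A (Kn A c t e k) J) (P' i)) (fun i hi => by
        obtain ⟨_, ⟨Y, hY, rfl⟩, h1⟩ := hP' i hi
        exact ⟨Y, hY, by rw [Ls_eval]; exact h1⟩)
    exact ⟨_, ⟨Y, hY1, rfl⟩, fun i hi => by rw [← Ls_eval]; exact hY2 i hi⟩
  · rintro M hM hM0 _ ⟨Y', hY', rfl⟩
    exact relZ hΦ hJ hk hd he M hM hM0 Y' hY'

/-- relations over number fields with `2πi` as a coordinate -/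
theorem absK (hΦ : Monotone Φ) (hJ : ∀ j ∈ J, GoodAt (A j) (Wk A c t (Φ j) j) (δ j) (t j)) {k D : ℕ}
    (hk : ∀ j ∈ J, k ≤ j) (hd : ∀ j ∈ J, 2 * (D * max 1 D) ≤ δ j) (K : Type) [Field K] [NumberField K]
    (hK : Module.finrank ℚ K ≤ D) (φ : K →+* ℂ)
    (P : MvPolynomial (Option (IJ A J)) K) (hP : P.totalDegree ≤ D)
    (h0 : MvPolynomial.aeval (fun o : Option (IJ A J) => o.elim tpi (ps A t J ∘ io A J)) (P.map φ) = 0)
    {lam : ℂ} (hl : lam ≠ 0)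
    (Y : (Σ j, (A j).I) → ℂ) (hY : ∀ j, (fun i => Y ⟨j, i⟩) ∈ Fs A J t lam j) :
    MvPolynomial.aeval (fun o : Option (IJ A J) => o.elim lam (Y ∘ io A J)) (P.map φ) = 0 := by
  classical
  have hG : ∀ j ∈ J, t j ∈ (A j).G := fun j hj => (hJ j hj).1
  -- the fibre over `2πi`
  have hfib : ∀ Y : (Σ j, (A j).I) → ℂ, (∀ j, (fun i => Y ⟨j, i⟩) ∈ Fs A J t tpi j) →
      MvPolynomial.aeval (fun o : Option (IJ A J) => o.elim tpi (Y ∘ io A J)) (P.map φ) = 0 := by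
    intro Y hY
    set g : Option (IJ A J) → Kn A c t 0 k ⊕ IJ A J := fun o =>
      o.elim (Sum.inl ⟨tpi, Or.inl rfl⟩) Sum.inr with hg
    have hv : ∀ Z : (Σ j, (A j).I) → ℂ,
        MvPolynomial.aeval (Sum.elim (fun z : Kn A c t 0 k => (z : ℂ)) (Z ∘ io A J)) ((MvPolynomial.rename g P).map φ) =
        MvPolynomial.aeval (fun o : Option (IJ A J) => o.elim tpi (Z ∘ io A J)) (P.map φ) := by
      intro Z
      rw [MvPolynomial.map_rename, MvPolynomial.aeval_rename]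
      congr 2
      funext o
      rcases o with _ | x
      · rfl
      · rfl
    have h1 := relK hΦ hJ hk hd (Nat.zero_le _) K hK φ (MvPolynomial.rename g P)
      ((MvPolynomial.totalDegree_rename_le _ _).trans hP) (by rw [hv]; exact h0) Y hY
    rw [hv] at h1
    exact h1
  -- polynomials in the variables of all families
  set L : ℂ → Option (IJ A J) → MvPolynomial (Σ j, (A j).I) ℂ := fun s o =>
    o.elim (MvPolynomial.C s) (fun x => MvPolynomial.X (io A J x)) with hL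
  have hLv : ∀ (s : ℂ) (Z : (Σ j, (A j).I) → ℂ),
      MvPolynomial.aeval Z (MvPolynomial.aeval (L s) (P.map φ)) =
        MvPolynomial.aeval (fun o : Option (IJ A J) => o.elim s (Z ∘ io A J)) (P.map φ) := by
    intro s Z
    have h1 := MvPolynomial.comp_aeval_apply (f := L s)
      (MvPolynomial.aeval Z : MvPolynomial (Σ j, (A j).I) ℂ →ₐ[ℂ] ℂ) (P.map φ)
    rw [h1]
    congr 2
    funext o
    rcases o with _ | x
    · simp [hL]
    · simp [hL]
  rw [← hLv]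
  refine step2 (F := Fs A J t lam) (R := Rs A J t lam) (fun j => Rs_ne hG _ j)
    (fun j => Fs_dense hG hl j) (fun Y hY => ?_) hY
  rw [hLv]
  have hq : ∀ j : ℕ, ∃ ρ : (A j).I → ℚ[X], (j ∈ J → ρ ∈ (A j).R (t j)) ∧
      (j ∈ J → (fun i => Y ⟨j, i⟩) = fun i => aeval lam (ρ i)) := by
    intro j
    by_cases h : j ∈ J
    · have h1 := hY j
      unfold Rs at h1
      rw [if_pos h] at h1
      obtain ⟨ρ, hρ, h2⟩ := h1
      exact ⟨ρ, fun _ => hρ, fun _ => h2⟩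
    · exact ⟨fun _ => 0, fun hj => absurd hj h, fun hj => absurd hj h⟩
  choose ρ hρ1 hρ2 using hq
  -- the points over all `s`
  set Z : ℂ → (Σ j, (A j).I) → ℂ := fun s x => if x.1 ∈ J then aeval s (ρ x.1 x.2) else 0 with hZ
  have hZY : MvPolynomial.aeval (fun o : Option (IJ A J) => o.elim lam (Y ∘ io A J)) (P.map φ) =
      MvPolynomial.aeval (fun o : Option (IJ A J) => o.elim lam (Z lam ∘ io A J)) (P.map φ) := by
    congr 2
    funext o
    rcases o with _ | x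
    · rfl
    · show Y (io A J x) = Z lam (io A J x)
      have h1 := congrFun (hρ2 x.1 x.1.2) x.2
      rw [hZ]
      simp only
      rw [if_pos (show (io A J x).1 ∈ J from x.1.2)]
      exact h1
  have hZmem : ∀ j, (fun i => Z tpi ⟨j, i⟩) ∈ Fs A J t tpi j := by
    intro j
    refine Rs_sub hG tpi_ne j ?_
    unfold Rs
    by_cases h : j ∈ J
    · rw [if_pos h]
      refine ⟨ρ j, hρ1 j h, ?_⟩
      funext i
      rw [hZ]
      simp only
      rw [if_pos h]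
    · rw [if_neg h]
      rw [Set.mem_singleton_iff]
      funext i
      rw [hZ]
      simp only
      rw [if_neg h]
      rfl
  -- the polynomial in `s`
  set E : Option (IJ A J) → K[X] := fun o => o.elim X fun x => (ρ x.1 x.2).map (algebraMap ℚ K) with hE
  have hEv : ∀ s : ℂ, (MvPolynomial.aeval E P : K[X]).eval₂ φ s =
      MvPolynomial.aeval (fun o : Option (IJ A J) => o.elim s (Z s ∘ io A J)) (P.map φ) := by
    intro s
    have e1 : (MvPolynomial.aeval E P : K[X]).eval₂ φ s = MvPolynomial.eval₂ φ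
        (fun o => (Polynomial.eval₂RingHom φ s) (E o)) P := by
      rw [← Polynomial.coe_eval₂RingHom, MvPolynomial.aeval_def, MvPolynomial.hom_eval₂]
      congr 1
      ext z
      simp
    rw [e1, MvPolynomial.aeval_def, MvPolynomial.eval₂_map]
    congr 1
    funext o
    rcases o with _ | x
    · simp [hE]
    · show (Polynomial.eval₂RingHom φ s) (E (some x)) = Z s (io A J x)
      rw [hZ]
      simp only
      rw [if_pos (show (io A J x).1 ∈ J from x.1.2)]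
      show ((ρ x.1 x.2).map (algebraMap ℚ K)).eval₂ φ s = aeval s (ρ x.1 x.2)
      rw [Polynomial.eval₂_map, aeval_def]
      congr 1
      exact Subsingleton.elim _ _
  have hE0 : (MvPolynomial.aeval E P : K[X]) = 0 := eval2_zero φ (by
    have := hfib _ hZmem
    rw [← hEv] at this
    exact this)
  rw [hZY, ← hEv, hE0, Polynomial.eval₂_zero]

end main

/-- **Main theorem, abstract form.** `S j` are properties of sets of natural numbers (sparse sets) such that for all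
spaces of bounded dimension the set of the bad parameters of the family `A j` has the property `S j`. -/
theorem main (ψ Φ δ : ℕ → ℕ) (hΦ : Φ = fun j => ∑ i ∈ Finset.range (j + 1), ψ i)
    (hδ : δ = fun j => ∑ i ∈ Finset.range (j + 1), 2 * (ψ i * max 1 (ψ i))) (S : ℕ → Set ℕ → Prop)
    (hS : ∀ j, ∀ W : Submodule ℚ ℂ, Module.Finite ℚ W → Module.finrank ℚ W ≤ Fintype.card (Kidx A (Φ j) j) →
      S j {τ | ¬ GoodAt (A j) W (δ j) τ}) (c : ℕ → ℂ) :
    ∃ B : ℕ → (ℕ → ℕ) → Set ℕ, (∀ j t t', (∀ i < j, t i = t' i) → B j t = B j t') ∧ (∀ j t, S j (B j t)) ∧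
      ∀ (t : ℕ → ℕ) (J : Set ℕ), (∀ j ∈ J, t j ∉ B j t) → (∀ j ∈ J, t j ∈ (A j).G) ∧
        ∀ k, (∀ j ∈ J, k ≤ j) → ∀ (K : Type) [Field K] [NumberField K], Module.finrank ℚ K ≤ ψ k → ∀ φ : K →+* ℂ,
          (∀ P : MvPolynomial (Option (IJ A J)) K, P.totalDegree ≤ ψ k →
            MvPolynomial.aeval (fun o : Option (IJ A J) => o.elim tpi (ps A t J ∘ io A J))
              (P.map φ) = 0 → ∀ lam : ℂ, lam ≠ 0 → ∀ Y : (Σ j, (A j).I) → ℂ,
              (∀ j, (fun i => Y ⟨j, i⟩) ∈ Fs A J t lam j) →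
              MvPolynomial.aeval (fun o : Option (IJ A J) => o.elim lam (Y ∘ io A J)) (P.map φ) = 0) ∧
          (∀ P : MvPolynomial (Kn A c t (ψ k) k ⊕ IJ A J) K, P.totalDegree ≤ ψ k →
            MvPolynomial.aeval (Sum.elim (fun z : Kn A c t (ψ k) k => (z : ℂ)) (ps A t J ∘ io A J)) (P.map φ) = 0 →
            ∀ Y : (Σ j, (A j).I) → ℂ,
              (∀ j, (fun i => Y ⟨j, i⟩) ∈ Fs A J t tpi j) →
              MvPolynomial.aeval (Sum.elim (fun z : Kn A c t (ψ k) k => (z : ℂ)) (Y ∘ io A J)) (P.map φ) = 0) := by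
  classical
  subst hΦ hδ
  have hΦm : Monotone fun j => ∑ i ∈ Finset.range (j + 1), ψ i :=
    fun i j hij => Finset.sum_le_sum_of_subset (Finset.range_mono (by omega))
  have hΦψ : ∀ k, ψ k ≤ ∑ i ∈ Finset.range (k + 1), ψ i := fun k =>
    Finset.single_le_sum (f := ψ) (fun _ _ => Nat.zero_le _) (Finset.mem_range.2 (Nat.lt_succ_self k))
  have hδψ : ∀ k j, k ≤ j → 2 * (ψ k * max 1 (ψ k)) ≤ ∑ i ∈ Finset.range (j + 1), 2 * (ψ i * max 1 (ψ i)) :=
    fun k j hkj => Finset.single_le_sum (f := fun i => 2 * (ψ i * max 1 (ψ i))) (fun _ _ => Nat.zero_le _)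
      (Finset.mem_range.2 (Nat.lt_succ_of_le hkj))
  refine ⟨fun j t => {τ | ¬ GoodAt (A j) (Wk A c t (∑ i ∈ Finset.range (j + 1), ψ i) j)
    (∑ i ∈ Finset.range (j + 1), 2 * (ψ i * max 1 (ψ i))) τ}, fun j t t' h => ?_, fun j t => ?_, fun t J hJ => ?_⟩
  · show {τ | ¬ GoodAt (A j) (Wk A c t _ j) _ τ} = {τ | ¬ GoodAt (A j) (Wk A c t' _ j) _ τ}
    rw [Wk_congr A c h]
  · obtain ⟨h1, h2⟩ := Wk_fin A c t (∑ i ∈ Finset.range (j + 1), ψ i) j
    exact hS j _ h1 h2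
  have hJ' : ∀ j ∈ J, GoodAt (A j) (Wk A c t (∑ i ∈ Finset.range (j + 1), ψ i) j)
    (∑ i ∈ Finset.range (j + 1), 2 * (ψ i * max 1 (ψ i))) (t j) := fun j hj => not_not.1 (hJ j hj)
  refine ⟨fun j hj => (hJ' j hj).1, fun k hk K _ _ hK φ => ⟨fun P hP hP0 lam hl Y hY => ?_, fun P hP hP0 Y hY => ?_⟩⟩
  · exact absK hΦm hJ' hk (fun j hj => hδψ k j (hk j hj)) K hK φ P hP hP0 hl Y hY
  · exact relK hΦm hJ' hk (fun j hj => hδψ k j (hk j hj)) (hΦψ k) K hK φ P hP hP0 Y hY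

end Pool.Agent.L5helper39.HI
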