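import Pool.Agent.L5helper39.HI.Abs
import Pool.Agent.Y119.HY.Fin2

/-!
# Hypergeometric motives as families of points on torsors
-/

set_option autoImplicit false

open Polynomial Matrix

namespace Pool.Agent.L5helper39.HI

open Pool.Agent.L5helper73.Inf Pool.Agent.Y118.HP Pool.Agent.Y118.HG Pool.Agent.Y113
open Pool.Agent.Y119.HY (cm Jm QD)
open Pool.Agent.Y119.HZ (Yt pw Jx Yt_form hyp_tuples_log Hp)

section opt

variable {σ : Type}

/-- specialisation of the first variable -/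
noncomputable def spl (l : ℂ) (P : MvPolynomial (Option σ) ℂ) : MvPolynomial σ ℂ :=
  MvPolynomial.aeval (fun o : Option σ => o.elim (MvPolynomial.C l) MvPolynomial.X) P

theorem spl_eval (l : ℂ) (P : MvPolynomial (Option σ) ℂ) (y : σ → ℂ) :
    MvPolynomial.aeval y (spl l P) = MvPolynomial.aeval (fun o : Option σ => o.elim l y) P := by
  have h1 := MvPolynomial.comp_aeval_apply (f := fun o : Option σ => o.elim (MvPolynomial.C l) MvPolynomial.X)
    (MvPolynomial.aeval y : MvPolynomial σ ℂ →ₐ[ℂ] ℂ) P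
  unfold spl
  rw [h1]
  congr 2
  funext o
  rcases o with _ | x
  · simp
  · simp

/-- the polynomial in the first variable -/
noncomputable def uni (y : σ → ℂ) (P : MvPolynomial (Option σ) ℂ) : ℂ[X] :=
  MvPolynomial.aeval (fun o : Option σ => o.elim X fun x => C (y x)) P

theorem uni_eval (y : σ → ℂ) (P : MvPolynomial (Option σ) ℂ) (l : ℂ) :
    (uni y P).eval l = MvPolynomial.aeval (fun o : Option σ => o.elim l y) P := by
  have h1 := MvPolynomial.comp_aeval_apply (f := fun o : Option σ => (o.elim X fun x => C (y x) : ℂ[X]))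
    (Polynomial.aeval l : ℂ[X] →ₐ[ℂ] ℂ) P
  rw [Polynomial.coe_aeval_eq_eval] at h1
  unfold uni
  rw [h1]
  congr 2
  funext o
  rcases o with _ | x
  · simp
  · simp

theorem uni_zero {y : σ → ℂ} {P : MvPolynomial (Option σ) ℂ}
    (h : ∀ l : ℚ, MvPolynomial.aeval (fun o : Option σ => o.elim (l : ℂ) y) P = 0) (l : ℂ) :
    MvPolynomial.aeval (fun o : Option σ => o.elim l y) P = 0 := by
  have h1 : uni y P = 0 := by
    refine Polynomial.eq_zero_of_infinite_isRoot _ ?_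
    refine (Set.infinite_range_of_injective (f := fun q : ℚ => (q : ℂ)) (fun a b h => Rat.cast_injective h)).mono ?_
    rintro _ ⟨q, rfl⟩
    show (uni y P).eval (q : ℂ) = 0
    rw [uni_eval]
    exact h q
  rw [← uni_eval, h1, eval_zero]

theorem opt_eta (y : Option σ → ℂ) : (fun o : Option σ => o.elim (y none) fun x => y (some x)) = y := by
  funext o
  rcases o with _ | x <;> rfl

/-- the product of a line and an irreducible set is irreducible -/
theorem irr_opt {S : Set (σ → ℂ)}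
    (hS : ∀ P P' : MvPolynomial σ ℂ, (∃ y ∈ S, MvPolynomial.aeval y P ≠ 0) → (∃ y ∈ S, MvPolynomial.aeval y P' ≠ 0) →
      ∃ y ∈ S, MvPolynomial.aeval y P ≠ 0 ∧ MvPolynomial.aeval y P' ≠ 0)
    {P P' : MvPolynomial (Option σ) ℂ} {y y' : Option σ → ℂ} (hy : (fun x => y (some x)) ∈ S)
    (hy' : (fun x => y' (some x)) ∈ S) (h : MvPolynomial.aeval y P ≠ 0) (h' : MvPolynomial.aeval y' P' ≠ 0) :
    ∃ z : Option σ → ℂ, (fun x => z (some x)) ∈ S ∧ MvPolynomial.aeval z P ≠ 0 ∧ MvPolynomial.aeval z P' ≠ 0 := by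
  have h1 : uni (fun x => y (some x)) P ≠ 0 := by
    intro h0
    apply h
    rw [← opt_eta y, ← uni_eval, h0, eval_zero]
  have h2 : uni (fun x => y' (some x)) P' ≠ 0 := by
    intro h0
    apply h'
    rw [← opt_eta y', ← uni_eval, h0, eval_zero]
  obtain ⟨l, hl⟩ : ∃ l : ℂ, (uni (fun x => y (some x)) P * uni (fun x => y' (some x)) P').eval l ≠ 0 := by
    by_contra hall
    push Not at hall
    exact mul_ne_zero h1 h2 (Polynomial.funext fun s => by rw [hall s, eval_zero])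
  rw [eval_mul, uni_eval, uni_eval] at hl
  obtain ⟨z, hz, h3, h4⟩ := hS (spl l P) (spl l P') ⟨_, hy, by rw [spl_eval]; exact left_ne_zero_of_mul hl⟩
    ⟨_, hy', by rw [spl_eval]; exact right_ne_zero_of_mul hl⟩
  rw [spl_eval] at h3 h4
  exact ⟨_, hz, h3, h4⟩

end opt

section form

variable {n : ℕ}

/-- the torsor with the form `B` on the Betti side -/
def FB (Q B : Matrix (Fin n) (Fin n) ℂ) (lam : ℂ) : Set (Fin n × Fin n → ℂ) :=
  {y | Matrix.of (fun i j => y (i, j)) * Q * (Matrix.of (fun i j => y (i, j))).transpose = lam • B}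

theorem fl_mem_FB {Q B : Matrix (Fin n) (Fin n) ℂ} {lam : ℂ} {X : Matrix (Fin n) (Fin n) ℂ} :
    fl X ∈ FB Q B lam ↔ X * Q * X.transpose = lam • B := Iff.rfl

theorem T_det {T B : Matrix (Fin n) (Fin n) ℂ} (hT : T * jm ℂ n * T.transpose = B) (hB : B.det ≠ 0) :
    IsUnit T.det := by
  rw [isUnit_iff_ne_zero]
  intro h0
  have := congrArg Matrix.det hT
  rw [Matrix.det_mul, Matrix.det_mul, h0, zero_mul, zero_mul] at this
  exact hB this.symm

theorem FB_of {Q T B : Matrix (Fin n) (Fin n) ℂ} (hT : T * jm ℂ n * T.transpose = B) {lam : ℂ}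
    {X : Matrix (Fin n) (Fin n) ℂ} (hX : X * Q * X.transpose = lam • jm ℂ n) : fl (T * X) ∈ FB Q B lam := by
  rw [fl_mem_FB, Matrix.transpose_mul]
  calc T * X * Q * (X.transpose * T.transpose) = T * (X * Q * X.transpose) * T.transpose := by
        simp only [Matrix.mul_assoc]
    _ = lam • B := by rw [hX, Matrix.mul_smul, Matrix.smul_mul, hT]

theorem of_FB (_hn : Even n) {Q T B : Matrix (Fin n) (Fin n) ℂ} (hT : T * jm ℂ n * T.transpose = B) (hB : B.det ≠ 0)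
    {lam : ℂ} {y : Fin n × Fin n → ℂ} (hy : y ∈ FB Q B lam) :
    ∃ X : Matrix (Fin n) (Fin n) ℂ, X * Q * X.transpose = lam • jm ℂ n ∧ y = fl (T * X) := by
  have hdet := T_det hT hB
  set Y : Matrix (Fin n) (Fin n) ℂ := Matrix.of fun i j => y (i, j) with hY
  have hY1 : Y * Q * Y.transpose = lam • B := hy
  have hinv := nonsing_inv_mul T hdet
  have hTT : T.transpose * (T⁻¹).transpose = 1 := by rw [← Matrix.transpose_mul, hinv, Matrix.transpose_one]
  refine ⟨T⁻¹ * Y, ?_, ?_⟩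
  · rw [Matrix.transpose_mul]
    calc T⁻¹ * Y * Q * (Y.transpose * (T⁻¹).transpose) = T⁻¹ * (Y * Q * Y.transpose) * (T⁻¹).transpose := by
          simp only [Matrix.mul_assoc]
      _ = lam • ((T⁻¹ * T) * jm ℂ n * (T.transpose * (T⁻¹).transpose)) := by
          rw [hY1, ← hT, Matrix.mul_smul, Matrix.smul_mul]
          simp only [Matrix.mul_assoc]
      _ = lam • jm ℂ n := by rw [hinv, hTT, one_mul, mul_one]
  · rw [← Matrix.mul_assoc, mul_nonsing_inv _ hdet, one_mul]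
    rfl

/-- substitution of `T X` -/
noncomputable def sbT (T : Matrix (Fin n) (Fin n) ℂ) (P : MvPolynomial (Fin n × Fin n) ℂ) :
    MvPolynomial (Fin n × Fin n) ℂ :=
  MvPolynomial.aeval (fl (T.map MvPolynomial.C * Matrix.of (fun i j => MvPolynomial.X (i, j)))) P

theorem sbT_eval (T : Matrix (Fin n) (Fin n) ℂ) (P : MvPolynomial (Fin n × Fin n) ℂ) (X : Matrix (Fin n) (Fin n) ℂ) :
    MvPolynomial.aeval (fl X) (sbT T P) = MvPolynomial.aeval (fl (T * X)) P := by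
  unfold sbT
  have h1 := MvPolynomial.comp_aeval_apply (f := fl (T.map MvPolynomial.C * Matrix.of (fun i j => MvPolynomial.X (i, j))))
    (MvPolynomial.aeval (fl X) : MvPolynomial (Fin n × Fin n) ℂ →ₐ[ℂ] ℂ) P
  rw [h1]
  congr 2
  funext x
  simp only [fl, Matrix.mul_apply, map_sum, map_mul, Matrix.map_apply, Matrix.of_apply, MvPolynomial.aeval_C,
    MvPolynomial.aeval_X, Algebra.algebraMap_self, RingHom.id_apply]

theorem dense_FB (hn : Even n) {Q B : Matrix (Fin n) (Fin n) ℂ} {X0 T : Matrix (Fin n) (Fin n) ℚ}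
    (hX0 : X0.map (algebraMap ℚ ℂ) * Q * (X0.map (algebraMap ℚ ℂ)).transpose = jm ℂ n)
    (hT : T.map (algebraMap ℚ ℂ) * jm ℂ n * (T.map (algebraMap ℚ ℂ)).transpose = B) (hB : B.det ≠ 0)
    {lam : ℂ} (hl : lam ≠ 0) (P : MvPolynomial (Fin n × Fin n) ℂ)
    (h : ∀ q ∈ SpS ℚ n, MvPolynomial.aeval (fl (T.map (algebraMap ℚ ℂ) *
      (Dg n lam * q.map (algebraMap ℚ ℂ) * X0.map (algebraMap ℚ ℂ)))) P = 0) :
    ∀ y ∈ FB Q B lam, MvPolynomial.aeval y P = 0 := by
  intro y hy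
  obtain ⟨X, hX, rfl⟩ := of_FB hn hT hB hy
  have h1 := dense_FF hn hX0 hl (sbT (T.map (algebraMap ℚ ℂ)) P) (fun y hy => by
    obtain ⟨q, hq, rfl⟩ := hy
    rw [sbT_eval]
    exact h q hq) (fl X) (fl_mem.2 hX)
  rw [sbT_eval] at h1
  exact h1

theorem irr_FB (hn : Even n) {Q B : Matrix (Fin n) (Fin n) ℂ} {X0 T : Matrix (Fin n) (Fin n) ℂ}
    (hX0 : X0 * Q * X0.transpose = jm ℂ n) (hT : T * jm ℂ n * T.transpose = B) (hB : B.det ≠ 0)
    {lam : ℂ} (hl : lam ≠ 0) (P P' : MvPolynomial (Fin n × Fin n) ℂ)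
    (hP : ∃ y ∈ FB Q B lam, MvPolynomial.aeval y P ≠ 0) (hP' : ∃ y ∈ FB Q B lam, MvPolynomial.aeval y P' ≠ 0) :
    ∃ y ∈ FB Q B lam, MvPolynomial.aeval y P ≠ 0 ∧ MvPolynomial.aeval y P' ≠ 0 := by
  obtain ⟨y, hy, h1⟩ := hP
  obtain ⟨y', hy', h1'⟩ := hP'
  obtain ⟨X, hX, rfl⟩ := of_FB hn hT hB hy
  obtain ⟨X', hX', rfl⟩ := of_FB hn hT hB hy'
  rw [← sbT_eval] at h1 h1'
  obtain ⟨z, hz, h2, h3⟩ := irr_FF hn hX0 hl (sbT T P) (sbT T P') ⟨_, fl_mem.2 hX, h1⟩ ⟨_, fl_mem.2 hX', h1'⟩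
  have e1 : z = fl (Matrix.of fun i j => z (i, j)) := rfl
  rw [e1, sbT_eval] at h2 h3
  exact ⟨_, FB_of hT hz, h2, h3⟩

end form

/-- the data of a hypergeometric family: the polynomial `Q`, the periods `Ω` of the limit motive, the form `B` on the
Betti side -/
structure HD (n : ℕ) (Q : Polynomial ℚ) (Ω : Matrix (Fin n) (Fin n) ℂ) (B : Matrix (Fin n) (Fin n) ℚ) : Prop where
  hQ : QD n Q
  hH : ∀ a b, SDc (Hp n Q a b)
  hB : B.det ≠ 0
  hΩ : Ω.transpose * cm (Jm n Q) * Ω = tpi • B.map (algebraMap ℚ ℂ)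

namespace HD

variable {n : ℕ} {Q : Polynomial ℚ} {Ω : Matrix (Fin n) (Fin n) ℂ} {B : Matrix (Fin n) (Fin n) ℚ}

theorem detB (h : HD n Q Ω B) : (B.map (algebraMap ℚ ℂ)).det ≠ 0 := by
  have h1 := (RingHom.map_det (algebraMap ℚ ℂ) B).symm
  rw [RingHom.mapMatrix_apply] at h1
  rw [h1]
  exact (_root_.map_ne_zero _).2 h.hB

theorem detΩ (h : HD n Q Ω B) : IsUnit Ω.det := by
  rw [isUnit_iff_ne_zero]
  intro h0
  have h1 := congrArg Matrix.det h.hΩ
  rw [Matrix.det_mul, h0, mul_zero, Matrix.det_smul] at h1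
  exact mul_ne_zero (pow_ne_zero _ tpi_ne) h.detB h1.symm

theorem skewB (h : HD n Q Ω B) : B.transpose = -B := by
  have h1 := congrArg Matrix.transpose h.hΩ
  rw [Matrix.transpose_mul, Matrix.transpose_mul, Matrix.transpose_transpose, Pool.Agent.Y119.HY.Jc_skew h.hQ,
    Matrix.neg_mul, Matrix.mul_neg, ← Matrix.mul_assoc, h.hΩ, Matrix.transpose_smul] at h1
  ext i j
  have h2 := congrFun (congrFun h1 i) j
  rw [Matrix.neg_apply, Matrix.smul_apply, Matrix.smul_apply, Matrix.transpose_apply, Matrix.map_apply,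
    Matrix.map_apply, smul_eq_mul, smul_eq_mul, ← mul_neg] at h2
  have h3 := mul_left_cancel₀ tpi_ne h2
  rw [← map_neg] at h3
  have h4 := (algebraMap ℚ ℂ).injective h3
  rw [Matrix.transpose_apply, Matrix.neg_apply]
  exact h4.symm

theorem exists_X0 (h : HD n Q Ω B) : ∃ X0 : Matrix (Fin n) (Fin n) ℚ, X0 * Jm n Q * X0.transpose = jm ℚ n := by
  obtain ⟨U, -, hU⟩ := Pool.Agent.Y122.HPDar.darboux (Jm n Q) (jm ℚ n) (Pool.Agent.Y119.HY.Jm_skew h.hQ)
    (fun i => by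
      have h1 := congrFun (congrFun (Pool.Agent.Y119.HY.Jm_skew h.hQ) i) i
      rw [Matrix.transpose_apply, Matrix.neg_apply] at h1
      linarith) (Pool.Agent.Y119.HY.Jm_det h.hQ) jm_transpose (fun i => jm_diag i) (jm_det h.hQ.even)
  exact ⟨U, hU⟩

theorem exists_T (h : HD n Q Ω B) : ∃ T : Matrix (Fin n) (Fin n) ℚ, T * jm ℚ n * T.transpose = B := by
  obtain ⟨U, -, hU⟩ := Pool.Agent.Y122.HPDar.darboux (jm ℚ n) B jm_transpose (fun i => jm_diag i) (jm_det h.hQ.even)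
    h.skewB (fun i => by
      have h1 := congrFun (congrFun h.skewB i) i
      rw [Matrix.transpose_apply, Matrix.neg_apply] at h1
      linarith) h.hB
  exact ⟨U, hU⟩

noncomputable def X0 (h : HD n Q Ω B) : Matrix (Fin n) (Fin n) ℚ := h.exists_X0.choose

noncomputable def T (h : HD n Q Ω B) : Matrix (Fin n) (Fin n) ℚ := h.exists_T.choose

theorem hX0 (h : HD n Q Ω B) : h.X0.map (algebraMap ℚ ℂ) * cm (Jm n Q) * (h.X0.map (algebraMap ℚ ℂ)).transpose =
    jm ℂ n := by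
  have h1 := h.exists_X0.choose_spec
  have h2 : h.X0 * Jm n Q * h.X0.transpose = jm ℚ n := h1
  have h3 : cm (Jm n Q) = (Jm n Q).map (algebraMap ℚ ℂ) := rfl
  rw [h3, ← Matrix.transpose_map, ← Matrix.map_mul, ← Matrix.map_mul, h2, jm_map]

theorem hT (h : HD n Q Ω B) : h.T.map (algebraMap ℚ ℂ) * jm ℂ n * (h.T.map (algebraMap ℚ ℂ)).transpose =
    B.map (algebraMap ℚ ℂ) := by
  have h2 : h.T * jm ℚ n * h.T.transpose = B := h.exists_T.choose_spec
  rw [← jm_map (algebraMap ℚ ℂ), ← Matrix.transpose_map, ← Matrix.map_mul, ← Matrix.map_mul, h2]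

/-- the rational points -/
noncomputable def rp (h : HD n Q Ω B) (l : ℚ) (q : Matrix (Fin n) (Fin n) ℚ) : Option (Fin n × Fin n) → ℚ[X] := fun o =>
  o.elim (C l) fun x => ((h.T.map C : Matrix (Fin n) (Fin n) ℚ[X]) *
    (Dg n (X : ℚ[X]) * (q.map C : Matrix (Fin n) (Fin n) ℚ[X]) * (h.X0.map C : Matrix (Fin n) (Fin n) ℚ[X]))) x.1 x.2

theorem rp_aeval (h : HD n Q Ω B) (l : ℚ) (q : Matrix (Fin n) (Fin n) ℚ) (lam : ℂ) :
    (fun o => (aeval lam (h.rp l q o) : ℂ)) = fun o : Option (Fin n × Fin n) => o.elim (l : ℂ)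
      (fl (h.T.map (algebraMap ℚ ℂ) * (Dg n lam * q.map (algebraMap ℚ ℂ) * h.X0.map (algebraMap ℚ ℂ)))) := by
  funext o
  rcases o with _ | x
  · show aeval lam (C l : ℚ[X]) = (l : ℂ)
    rw [aeval_C]
    rfl
  · show aeval lam (((h.T.map C : Matrix (Fin n) (Fin n) ℚ[X]) * (Dg n (X : ℚ[X]) *
      (q.map C : Matrix (Fin n) (Fin n) ℚ[X]) * (h.X0.map C : Matrix (Fin n) (Fin n) ℚ[X]))) x.1 x.2) =
      (h.T.map (algebraMap ℚ ℂ) * (Dg n lam * q.map (algebraMap ℚ ℂ) * h.X0.map (algebraMap ℚ ℂ))) x.1 x.2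
    have h1 : ∀ M : Matrix (Fin n) (Fin n) ℚ, (M.map C : Matrix (Fin n) (Fin n) ℚ[X]).map
        (aeval lam : ℚ[X] →ₐ[ℚ] ℂ).toRingHom = M.map (algebraMap ℚ ℂ) := by
      intro M
      ext i j
      rw [Matrix.map_apply, Matrix.map_apply, Matrix.map_apply]
      exact aeval_C _ _
    have h2 : (Dg n (X : ℚ[X])).map (aeval lam : ℚ[X] →ₐ[ℚ] ℂ).toRingHom = Dg n lam := by
      rw [Dg_map]
      congr 1
      exact aeval_X _
    have h3 : ((h.T.map C : Matrix (Fin n) (Fin n) ℚ[X]) * (Dg n (X : ℚ[X]) *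
        (q.map C : Matrix (Fin n) (Fin n) ℚ[X]) * (h.X0.map C : Matrix (Fin n) (Fin n) ℚ[X]))).map
        (aeval lam : ℚ[X] →ₐ[ℚ] ℂ).toRingHom =
        h.T.map (algebraMap ℚ ℂ) * (Dg n lam * q.map (algebraMap ℚ ℂ) * h.X0.map (algebraMap ℚ ℂ)) := by
      rw [Matrix.map_mul, Matrix.map_mul, Matrix.map_mul, h1, h1, h1, h2]
    exact congrFun (congrFun h3 x.1) x.2

theorem rp_deg (h : HD n Q Ω B) (l : ℚ) (q : Matrix (Fin n) (Fin n) ℚ) (o : Option (Fin n × Fin n)) :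
    (h.rp l q o).natDegree ≤ 1 := by
  rcases o with _ | x
  · show (C l : ℚ[X]).natDegree ≤ 1
    rw [natDegree_C]
    exact Nat.zero_le _
  · show (((h.T.map C : Matrix (Fin n) (Fin n) ℚ[X]) * (Dg n (X : ℚ[X]) *
      (q.map C : Matrix (Fin n) (Fin n) ℚ[X]) * (h.X0.map C : Matrix (Fin n) (Fin n) ℚ[X]))) x.1 x.2).natDegree ≤ 1
    rw [Matrix.mul_apply]
    refine natDegree_sum_le_of_forall_le _ _ fun r _ => ?_
    rw [Matrix.map_apply]
    refine (natDegree_C_mul_le _ _).trans ?_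
    rw [Matrix.mul_apply]
    refine natDegree_sum_le_of_forall_le _ _ fun s _ => ?_
    rw [Matrix.map_apply]
    refine (natDegree_mul_C_le _ _).trans ?_
    unfold Dg
    rw [Matrix.diagonal_mul, Matrix.map_apply]
    refine (natDegree_mul_C_le _ _).trans ?_
    split_ifs
    · exact natDegree_X_le
    · rw [natDegree_one]
      exact Nat.zero_le _

/-- the points `(log t, (Y(t) Ω)ᵀ)` -/
noncomputable def pp (_h : HD n Q Ω B) (τ : ℕ) : Option (Fin n × Fin n) → ℂ := fun o =>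
  o.elim ((Real.log τ : ℝ) : ℂ) (fl (Yt n Q τ * Ω).transpose)

/-- the fibres -/
def FS (_h : HD n Q Ω B) (lam : ℂ) : Set (Option (Fin n × Fin n) → ℂ) :=
  {y | (fun x => y (some x)) ∈ FB (cm (Jm n Q)) (B.map (algebraMap ℚ ℂ)) lam}

/-- the rational points -/
def RS (h : HD n Q Ω B) : Set (Option (Fin n × Fin n) → ℚ[X]) :=
  {ρ | ∃ (l : ℚ) (q : Matrix (Fin n) (Fin n) ℚ), q ∈ SpS ℚ n ∧ ρ = h.rp l q}

theorem pp_mem (h : HD n Q Ω B) {τ : ℕ} (hτ : 2 ≤ τ) : h.pp τ ∈ h.FS tpi := by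
  show fl (Yt n Q τ * Ω).transpose ∈ FB (cm (Jm n Q)) (B.map (algebraMap ℚ ℂ)) tpi
  rw [fl_mem_FB, Matrix.transpose_transpose, Matrix.transpose_mul]
  calc Ω.transpose * (Yt n Q τ).transpose * cm (Jm n Q) * (Yt n Q τ * Ω)
      = Ω.transpose * ((Yt n Q τ).transpose * cm (Jm n Q) * Yt n Q τ) * Ω := by simp only [Matrix.mul_assoc]
    _ = tpi • B.map (algebraMap ℚ ℂ) := by rw [Yt_form h.hQ hτ, h.hΩ]

theorem RS_FS (h : HD n Q Ω B) {ρ : Option (Fin n × Fin n) → ℚ[X]} (hρ : ρ ∈ h.RS) (lam : ℂ) :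
    (fun i => (aeval lam (ρ i) : ℂ)) ∈ h.FS lam := by
  obtain ⟨l, q, hq, rfl⟩ := hρ
  rw [h.rp_aeval]
  show fl (h.T.map (algebraMap ℚ ℂ) * (Dg n lam * q.map (algebraMap ℚ ℂ) * h.X0.map (algebraMap ℚ ℂ))) ∈
    FB (cm (Jm n Q)) (B.map (algebraMap ℚ ℂ)) lam
  exact FB_of h.hT (Dg_mem h.hX0 lam (SpS_map _ hq))

theorem RS_dense (h : HD n Q Ω B) {lam : ℂ} (hl : lam ≠ 0) (P : MvPolynomial (Option (Fin n × Fin n)) ℂ)
    (hP : ∀ ρ ∈ h.RS, MvPolynomial.aeval (fun i => (aeval lam (ρ i) : ℂ)) P = 0) :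
    ∀ y ∈ h.FS lam, MvPolynomial.aeval y P = 0 := by
  intro y hy
  have h1 : ∀ l : ℂ, ∀ q ∈ SpS ℚ n, MvPolynomial.aeval (fl (h.T.map (algebraMap ℚ ℂ) *
      (Dg n lam * q.map (algebraMap ℚ ℂ) * h.X0.map (algebraMap ℚ ℂ)))) (spl l P) = 0 := by
    intro l q hq
    rw [spl_eval]
    refine uni_zero (fun l => ?_) l
    have h0 := hP (h.rp l q) ⟨l, q, hq, rfl⟩
    rw [h.rp_aeval] at h0
    exact h0
  have h2 := dense_FB h.hQ.even h.hX0 h.hT h.detB hl (spl (y none) P) (h1 (y none)) (fun x => y (some x)) hy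
  rw [spl_eval, opt_eta] at h2
  exact h2

theorem FS_irr (h : HD n Q Ω B) (P P' : MvPolynomial (Option (Fin n × Fin n)) ℂ)
    (hP : ∃ y ∈ h.FS tpi, MvPolynomial.aeval y P ≠ 0) (hP' : ∃ y ∈ h.FS tpi, MvPolynomial.aeval y P' ≠ 0) :
    ∃ y ∈ h.FS tpi, MvPolynomial.aeval y P ≠ 0 ∧ MvPolynomial.aeval y P' ≠ 0 := by
  obtain ⟨y, hy, h1⟩ := hP
  obtain ⟨y', hy', h1'⟩ := hP'
  exact irr_opt (S := FB (cm (Jm n Q)) (B.map (algebraMap ℚ ℂ)) tpi)
    (fun P P' => irr_FB h.hQ.even h.hX0 h.hT h.detB tpi_ne P P') hy hy' h1 h1'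

/-- the family of points `(log t, (Y(t) Ω)ᵀ)` -/
noncomputable def fam (h : HD n Q Ω B) : Fam where
  I := Option (Fin n × Fin n)
  fin := inferInstance
  G := {τ | 2 ≤ τ}
  p := h.pp
  F := fun _ => h.FS
  R := fun _ => h.RS
  hp := fun _ hτ => h.pp_mem hτ
  hRne := fun _ _ => ⟨_, 0, 1, SpS_one, rfl⟩
  hRdeg := by
    rintro τ - ρ ⟨l, q, -, rfl⟩ i
    exact h.rp_deg l q i
  hRF := fun _ _ _ hρ lam _ => h.RS_FS hρ lam
  hdense := fun _ _ _ hl P hP => h.RS_dense hl P hP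
  hirr := fun _ _ P P' hP hP' => h.FS_irr P P' hP hP'

open Classical in
/-- the bad parameters are sparse in all intervals -/
theorem sparse (w δ : ℕ) (hQ : QD n Q) (hH : ∀ a b, SDc (Hp n Q a b)) :
    ∃ c C : ℝ, 0 < c ∧ ∀ (Ω : Matrix (Fin n) (Fin n) ℂ) (B : Matrix (Fin n) (Fin n) ℚ) (h : HD n Q Ω B)
      (W : Submodule ℚ ℂ), Module.Finite ℚ W → Module.finrank ℚ W ≤ w → ∀ x N : ℕ, 1 ≤ x → 1 ≤ N →
      (({τ : ℕ | ¬ GoodAt h.fam W δ τ} ∩ Set.Ioc x (x + N)).ncard : ℝ) ≤ C * (1 + N / ((x : ℝ) + N) ^ c) := by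
  obtain ⟨c, C, hc, -, hmain⟩ := hyp_tuples_log 1 δ (w ^ δ) (fun _ => n) (fun _ => Q) (fun _ => hQ) (fun _ => hH)
  refine ⟨c, C, hc, fun Ω B h W hW hWw x N hx hN => ?_⟩
  obtain ⟨h1, h2⟩ := finrank_pow_le W δ
  haveI := h1
  set Z : Set ℕ := {τ : ℕ | ¬ GoodAt h.fam W δ τ} ∩ Set.Ioc x (x + N) with hZ
  have hfin : Z.Finite := (Set.finite_Ioc x (x + N)).subset Set.inter_subset_right
  set S : Finset (Fin 1 → ℕ) := hfin.toFinset.image fun τ _ => τ with hS
  have hinj : Function.Injective fun (τ : ℕ) (_ : Fin 1) => τ := fun a b hab => congrFun hab 0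
  have hcard : S.card = Z.ncard := by
    rw [hS, Finset.card_image_of_injective _ hinj, Set.ncard_eq_toFinset_card Z hfin]
  have h3 := hmain (W ^ δ) (h2.trans (Nat.pow_le_pow_left hWw δ)) (fun _ => Ω) (fun _ => x) N (fun _ => hx) hN S
    (fun t ht => by
      obtain ⟨τ, hτ, rfl⟩ := Finset.mem_image.1 ht
      obtain ⟨hτ1, hτ2⟩ := (hfin.mem_toFinset).1 hτ
      refine ⟨fun _ => ⟨hτ2.1, hτ2.2⟩, ?_⟩
      have hG : τ ∈ h.fam.G := by
        show 2 ≤ τ
        have := hτ2.1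
        omega
      have hτ3 : ¬ (τ ∈ h.fam.G ∧ ∀ Q : MvPolynomial (Option (Fin n × Fin n)) ℂ, DC δ (W ^ δ) Q →
        MvPolynomial.aeval (h.pp τ) Q = 0 → ∀ y ∈ h.FS tpi, MvPolynomial.aeval y Q = 0) := hτ1
      push Not at hτ3
      obtain ⟨P, hP, hP0, y, hy, hPy⟩ := hτ3 hG
      set r : Option (Fin n × Fin n) → Jx (fun _ : Fin 1 => n) := fun o => ⟨0, o.map Prod.swap⟩ with hr
      have hrinj : Function.Injective r := by
        intro a b hab
        have h4 := eq_of_heq (Sigma.mk.inj hab).2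
        exact Option.map_injective Prod.swap_injective h4
      have hv : ∀ (l : ℂ) (X : Matrix (Fin n) (Fin n) ℂ), MvPolynomial.aeval
          (pw (n := fun _ : Fin 1 => n) (fun _ : Fin 1 => l) fun _ => X) (MvPolynomial.rename r P) =
          MvPolynomial.aeval (fun o : Option (Fin n × Fin n) => o.elim l (fl X.transpose)) P := by
        intro l X
        rw [MvPolynomial.aeval_rename]
        congr 2
        funext o
        rcases o with _ | x
        · rfl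
        · rfl
      refine ⟨MvPolynomial.rename r P, (MvPolynomial.totalDegree_rename_le _ _).trans hP.1, fun s => ?_, ?_, ?_⟩
      · by_cases hs : MvPolynomial.coeff s (MvPolynomial.rename r P) = 0
        · rw [hs]
          exact Submodule.zero_mem _
        · obtain ⟨u, hu, -⟩ := MvPolynomial.coeff_rename_ne_zero _ _ _ hs
          rw [← hu, MvPolynomial.coeff_rename_mapDomain _ hrinj]
          exact hP.2 u
      · rw [hv]
        exact hP0
      · have hΩ := h.detΩ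
        set X : Matrix (Fin n) (Fin n) ℂ := Matrix.of fun i j => y (some (i, j)) with hX
        have hX1 : X * cm (Jm n Q) * X.transpose = tpi • B.map (algebraMap ℚ ℂ) := hy
        have hinv := mul_nonsing_inv Ω hΩ
        have hinv' := nonsing_inv_mul Ω hΩ
        have hT : (Ω⁻¹).transpose * Ω.transpose = 1 := by
          rw [← Matrix.transpose_mul, hinv, Matrix.transpose_one]
        refine ⟨fun _ => y none, fun _ => X.transpose * Ω⁻¹, fun _ => ?_, ?_⟩
        · rw [Matrix.transpose_mul, Matrix.transpose_transpose]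
          calc (Ω⁻¹).transpose * X * cm (Jm n Q) * (X.transpose * Ω⁻¹)
              = (Ω⁻¹).transpose * (X * cm (Jm n Q) * X.transpose) * Ω⁻¹ := by simp only [Matrix.mul_assoc]
            _ = ((Ω⁻¹).transpose * Ω.transpose) * cm (Jm n Q) * (Ω * Ω⁻¹) := by
              rw [hX1, ← h.hΩ]
              simp only [Matrix.mul_assoc]
            _ = cm (Jm n Q) := by rw [hT, hinv, one_mul, mul_one]
        · rw [hv, Matrix.mul_assoc, hinv', mul_one, Matrix.transpose_transpose]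
          have e1 : (fun o : Option (Fin n × Fin n) => o.elim (y none) (fl X)) = y := opt_eta y
          rw [e1]
          exact hPy)
  rw [hcard] at h3
  refine h3.trans (le_of_eq ?_)
  simp

end HD

end Pool.Agent.L5helper39.HI
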